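import Pool.Agent.Q332.HinProx

/-!
The index set of the computable colourings with a computable solution of Hindman's theorem is
hard for `Σ⁰₃`.
-/

set_option autoImplicit false

namespace Pool.Agent.Q332.HinIndex

open Pool.Agent.Y545.HM Pool.Agent.Y545.HM.St Pool.Agent.Helper446
  Pool.Agent.Helper446.Defs Pool.Agent.Helper446.Oracle

variable {k : ℕ}

/-- `X` is homogeneous for the sums of at most `r` distinct elements (`r = ⊤`: for all sums). -/
def Hom (r : ℕ∞) (c : ℕ → Fin k) (X : Set ℕ) : Prop :=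
  X.Infinite ∧ 0 ∉ X ∧ ∃ j, ∀ F : Finset ℕ, (F : Set ℕ) ⊆ X → F.Nonempty → (F.card : ℕ∞) ≤ r →
    c (∑ x ∈ F, x) = j

/-- progress of the approximation of a `Π⁰₂` statement -/
def g (R : ℕ → ℕ → ℕ → ℕ → Bool) (n i : ℕ) : ℕ → ℕ :=
  fun t => Nat.rec (motive := fun _ => ℕ) 0
    (fun t v => bif R n i v t.unpair.1 then v + 1 else v) t

variable {R : ℕ → ℕ → ℕ → ℕ → Bool}

theorem g_zero (n i : ℕ) : g R n i 0 = 0 := rfl

theorem g_succ (n i t : ℕ) : g R n i (t + 1) =
    bif R n i (g R n i t) t.unpair.1 then g R n i t + 1 else g R n i t := rfl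

theorem g_le_succ (n i t : ℕ) : g R n i t ≤ g R n i (t + 1) := by
  rw [g_succ]
  cases R n i (g R n i t) t.unpair.1 <;> simp

theorem g_succ_le (n i t : ℕ) : g R n i (t + 1) ≤ g R n i t + 1 := by
  rw [g_succ]
  cases R n i (g R n i t) t.unpair.1 <;> simp

theorem g_mono (n i : ℕ) : Monotone (g R n i) := monotone_nat_of_le_succ (g_le_succ n i)

theorem g_le (n i t : ℕ) : g R n i t ≤ t := by
  induction t with
  | zero => exact le_rfl
  | succ t ih => exact (g_succ_le n i t).trans (by omega)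

theorem g_unbdd {n i : ℕ} (h : ∀ b, ∃ t, R n i b t = true) (L : ℕ) : ∃ t, L ≤ g R n i t := by
  induction L with
  | zero => exact ⟨0, Nat.zero_le _⟩
  | succ L ih =>
    obtain ⟨t0, h0⟩ := ih
    obtain ⟨w, hw⟩ := h L
    have h1 : L ≤ g R n i (Nat.pair w t0) := h0.trans (g_mono n i (Nat.right_le_pair w t0))
    rcases Nat.lt_or_ge L (g R n i (Nat.pair w t0)) with h2 | h2
    · exact ⟨_, h2⟩
    · refine ⟨Nat.pair w t0 + 1, ?_⟩
      have h3 : g R n i (Nat.pair w t0) = L := le_antisymm h2 h1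
      rw [g_succ, h3, Nat.unpair_pair, hw]
      exact le_rfl

theorem g_bdd {n i b : ℕ} (h : ∀ t, R n i b t = false) (t : ℕ) : g R n i t ≤ b := by
  induction t with
  | zero => exact Nat.zero_le _
  | succ t ih =>
    rcases ih.lt_or_eq with h1 | h1
    · exact (g_succ_le n i t).trans h1
    · rw [g_succ, h1, h]
      exact le_rfl

theorem g_stable {n i b : ℕ} (h : ∀ t, R n i b t = false) :
    ∃ T, ∀ t, T ≤ t → g R n i (t + 1) = g R n i t := by
  have key : ∀ d T0, b - g R n i T0 ≤ d → ∃ T, ∀ t, T ≤ t → g R n i (t + 1) = g R n i t := by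
    intro d
    induction d with
    | zero =>
      intro T0 h0
      refine ⟨T0, fun t ht => ?_⟩
      have h1 := g_mono (R := R) n i ht
      have h2 := g_mono (R := R) n i (ht.trans (Nat.le_succ t))
      have h3 := g_bdd h t
      have h4 := g_bdd h (t + 1)
      simp only [Nat.succ_eq_add_one] at h2
      omega
    | succ d ih =>
      intro T0 h0
      by_cases h1 : ∃ t, T0 ≤ t ∧ g R n i (t + 1) ≠ g R n i t
      · obtain ⟨t, ht, hne⟩ := h1
        refine ih (t + 1) ?_
        have h2 := g_mono (R := R) n i ht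
        have h3 := g_le_succ (R := R) n i t
        have h4 := g_bdd h (t + 1)
        omega
      · push Not at h1
        exact ⟨T0, h1⟩
  exact key _ 0 le_rfl

/-- the binary logarithm -/
def lg (m : ℕ) : ℕ :=
  Nat.rec (motive := fun _ => ℕ) 0
    (fun m s => bif decide (2 ^ (s + 1) ≤ m + 1) then s + 1 else s) m

theorem lg_succ (m : ℕ) : lg (m + 1) =
    bif decide (2 ^ (lg m + 1) ≤ m + 1) then lg m + 1 else lg m := rfl

theorem lg_spec (m : ℕ) : 2 ^ lg (m + 1) ≤ m + 1 ∧ m + 1 < 2 ^ (lg (m + 1) + 1) := by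
  induction m with
  | zero =>
    have : lg (0 + 1) = 0 := rfl
    rw [this]
    decide
  | succ m ih =>
    rw [lg_succ (m + 1)]
    by_cases h : 2 ^ (lg (m + 1) + 1) ≤ m + 1 + 1
    · rw [decide_eq_true h, cond_true]
      refine ⟨h, ?_⟩
      have : 2 ^ (lg (m + 1) + 1 + 1) = 2 * 2 ^ (lg (m + 1) + 1) := by rw [pow_succ]; ring
      rw [this]
      have := ih.2
      omega
    · rw [decide_eq_false h, cond_false]
      exact ⟨ih.1.trans (Nat.le_succ _), not_le.1 h⟩

theorem lg_eq {m s : ℕ} (h1 : 2 ^ s ≤ m) (h2 : m < 2 ^ (s + 1)) : lg m = s := by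
  have h0 : 0 < m := lt_of_lt_of_le (by positivity) h1
  obtain ⟨m, rfl⟩ := Nat.exists_eq_succ_of_ne_zero h0.ne'
  obtain ⟨h3, h4⟩ := lg_spec m
  have h5 : s < lg (m + 1) + 1 :=
    (Nat.pow_lt_pow_iff_right (by norm_num : 1 < 2)).1 (lt_of_le_of_lt h1 h4)
  have h6 : lg (m + 1) < s + 1 :=
    (Nat.pow_lt_pow_iff_right (by norm_num : 1 < 2)).1 (lt_of_le_of_lt h3 h2)
  show lg (m + 1) = s
  omega

/-- the marked numbers -/
def Mk (R : ℕ → ℕ → ℕ → ℕ → Bool) (n m : ℕ) : Bool :=
  decide (g R n (lg m).unpair.1 (lg m).unpair.2 < g R n (lg m).unpair.1 ((lg m).unpair.2 + 1)) &&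
    (decide (m % 2 ^ (lg m).unpair.1 = 0) &&
      decide (m < 2 ^ lg m + g R n (lg m).unpair.1 ((lg m).unpair.2 + 1)))

/-- the family of colourings -/
def col (R : ℕ → ℕ → ℕ → ℕ → Bool) (c : ℕ → Fin k) (n m : ℕ) : Fin (k + 1) :=
  bif Mk R n m then Fin.last k else (c m).castSucc

theorem c_g (hR : Computable fun x : ℕ × ℕ × ℕ × ℕ => R x.1 x.2.1 x.2.2.1 x.2.2.2)
    {α : Type*} [Primcodable α] {a b t : α → ℕ} (ha : Computable a) (hb : Computable b)
    (ht : Computable t) : Computable fun x : α => g R (a x) (b x) (t x) := by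
  unfold g
  refine Computable.nat_rec (f := fun x : α => t x) (g := fun _ => 0)
    (h := fun x z => bif R (a x) (b x) z.2 z.1.unpair.1 then z.2 + 1 else z.2)
    ht (Computable.const 0) ?_
  have h1 : Computable fun y : α × (ℕ × ℕ) => R (a y.1) (b y.1) y.2.2 y.2.1.unpair.1 :=
    hR.comp (g := fun y : α × (ℕ × ℕ) => (a y.1, b y.1, y.2.2, y.2.1.unpair.1))
      ((ha.comp Computable.fst).pair ((hb.comp Computable.fst).pair
        ((Computable.snd.comp Computable.snd).pair
          (Computable.fst.comp (Computable.unpair.comp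
            (Computable.fst.comp Computable.snd))))))
  exact Computable.cond h1 (by fun_prop) (by fun_prop)

theorem c_lg : Computable lg := by
  unfold lg
  refine Computable.nat_rec (f := fun m : ℕ => m) (g := fun _ => 0)
    (h := fun _ z => bif decide (2 ^ (z.2 + 1) ≤ z.1 + 1) then z.2 + 1 else z.2)
    Computable.id (Computable.const 0) ?_
  have h1 : Computable fun y : ℕ × (ℕ × ℕ) => decide (2 ^ (y.2.2 + 1) ≤ y.2.1 + 1) := by
    have h2 : Computable fun q : ℕ × ℕ => decide (q.1 ≤ q.2) := Primrec.nat_le.decide.to_comp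
    exact h2.comp (g := fun y : ℕ × (ℕ × ℕ) => (2 ^ (y.2.2 + 1), y.2.1 + 1)) (by fun_prop)
  exact Computable.cond h1 (by fun_prop) (by fun_prop)

theorem c_Mk (hR : Computable fun x : ℕ × ℕ × ℕ × ℕ => R x.1 x.2.1 x.2.2.1 x.2.2.2) :
    Computable fun x : ℕ × ℕ => Mk R x.1 x.2 := by
  have hl : Computable fun x : ℕ × ℕ => lg x.2 := c_lg.comp Computable.snd
  have hi : Computable fun x : ℕ × ℕ => (lg x.2).unpair.1 :=
    Computable.fst.comp (Computable.unpair.comp hl)
  have ht : Computable fun x : ℕ × ℕ => (lg x.2).unpair.2 :=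
    Computable.snd.comp (Computable.unpair.comp hl)
  have g1 := c_g hR (Computable.fst : Computable fun x : ℕ × ℕ => x.1) hi ht
  have g2 := c_g hR (Computable.fst : Computable fun x : ℕ × ℕ => x.1) hi
    (Computable.succ.comp ht)
  have hlt : Computable fun q : ℕ × ℕ => decide (q.1 < q.2) := Primrec.nat_lt.decide.to_comp
  have heq : Computable fun q : ℕ × ℕ => decide (q.1 = q.2) :=
    (Primrec.eq (α := ℕ)).decide.to_comp
  have hand : Computable fun q : Bool × Bool => (q.1 && q.2) := Primrec.and.to_comp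
  have hmod : Computable fun q : ℕ × ℕ => q.1 % q.2 :=
    (Primrec.nat_mod.comp Primrec.fst Primrec.snd).to_comp
  have hadd : Computable fun q : ℕ × ℕ => q.1 + q.2 :=
    (Primrec.nat_add.comp Primrec.fst Primrec.snd).to_comp
  have p1 : Computable fun x : ℕ × ℕ => decide (g R x.1 (lg x.2).unpair.1 (lg x.2).unpair.2 <
      g R x.1 (lg x.2).unpair.1 ((lg x.2).unpair.2 + 1)) := hlt.comp (g1.pair g2)
  have p2 : Computable fun x : ℕ × ℕ => decide (x.2 % 2 ^ (lg x.2).unpair.1 = 0) :=
    heq.comp ((hmod.comp (Computable.snd.pair (c_pow2 hi))).pair (Computable.const 0))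
  have p3 : Computable fun x : ℕ × ℕ => decide (x.2 < 2 ^ lg x.2 +
      g R x.1 (lg x.2).unpair.1 ((lg x.2).unpair.2 + 1)) :=
    hlt.comp (Computable.snd.pair (hadd.comp ((c_pow2 hl).pair g2)))
  exact hand.comp (p1.pair (hand.comp (p2.pair p3)))

theorem c_col (hR : Computable fun x : ℕ × ℕ × ℕ × ℕ => R x.1 x.2.1 x.2.2.1 x.2.2.2)
    {c : ℕ → Fin k} (hc : Computable c) : Computable fun x : ℕ × ℕ => col R c x.1 x.2 := by
  have h1 : Computable fun j : Fin k => j.castSucc := by
    refine Primrec.to_comp ?_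
    exact Primrec.dom_finite _
  exact Computable.cond (c_Mk hR) (Computable.const _) (h1.comp (hc.comp Computable.snd))

/-- if the `Σ⁰₃` statement holds, there is a computable solution -/
theorem pos (hR : Computable fun x : ℕ × ℕ × ℕ × ℕ => R x.1 x.2.1 x.2.2.1 x.2.2.2)
    {c : ℕ → Fin k} (hc : Computable c) {n : ℕ}
    (h : ∃ i, ∀ b, ∃ t, R n i b t = true) :
    ∃ X, Solution (col R c n) X ∧ ComputablePred fun x => x ∈ X := by
  obtain ⟨i, hi⟩ := h
  have hc' : Computable fun m : ℕ => col R c n (2 ^ i * m) :=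
    (c_col hR hc).comp (g := fun m : ℕ => (n, 2 ^ i * m)) (by fun_prop)
  have key : ∀ L N, ∃ m, N ≤ m ∧ ∀ j ≤ L, col R c n (2 ^ i * (m + j)) = Fin.last k := by
    intro L N
    -- the first time at which the progress is at least this large
    have hex : ∃ t, 2 ^ i * L + 1 + N ≤ g R n i t := g_unbdd hi _
    have hspec := Nat.find_spec hex
    have hpos : Nat.find hex ≠ 0 := by
      intro h0
      rw [h0, g_zero] at hspec
      omega
    obtain ⟨t, ht⟩ := Nat.exists_eq_succ_of_ne_zero hpos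
    have hmin : g R n i t < 2 ^ i * L + 1 + N := not_le.1 (Nat.find_min hex (by omega))
    rw [ht, Nat.succ_eq_add_one] at hspec
    have hle := g_le (R := R) n i (t + 1)
    have hp1 : i + t ≤ Nat.pair i t := Nat.add_le_pair i t
    have hs2 : Nat.pair i t + 1 ≤ 2 ^ Nat.pair i t := Nat.lt_two_pow_self
    have hpow : 2 ^ Nat.pair i t = 2 ^ i * 2 ^ (Nat.pair i t - i) := by
      rw [← pow_add]
      congr 1
      omega
    refine ⟨2 ^ (Nat.pair i t - i), ?_, fun j hj => ?_⟩
    · have : Nat.pair i t - i < 2 ^ (Nat.pair i t - i) := Nat.lt_two_pow_self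
      omega
    · have e : 2 ^ i * (2 ^ (Nat.pair i t - i) + j) = 2 ^ Nat.pair i t + 2 ^ i * j := by
        rw [mul_add, ← hpow]
      have hj2 : 2 ^ i * j ≤ 2 ^ i * L := Nat.mul_le_mul_left _ hj
      have hlg : lg (2 ^ Nat.pair i t + 2 ^ i * j) = Nat.pair i t := by
        refine lg_eq (Nat.le_add_right _ _) ?_
        rw [pow_succ]
        omega
      have hmk : Mk R n (2 ^ Nat.pair i t + 2 ^ i * j) = true := by
        unfold Mk
        rw [hlg, Nat.unpair_pair]
        have h1 : g R n i t < g R n i (t + 1) := by omega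
        have h2 : (2 ^ Nat.pair i t + 2 ^ i * j) % 2 ^ i = 0 := by
          rw [hpow, ← mul_add]
          exact Nat.mul_mod_right _ _
        have h3 : 2 ^ Nat.pair i t + 2 ^ i * j < 2 ^ Nat.pair i t + g R n i (t + 1) := by omega
        simp only [h1, h2, h3, decide_true, Bool.and_self]
      rw [e]
      unfold col
      rw [hmk, cond_true]
  obtain ⟨X, ⟨hinf, h0, j, hj⟩, hX⟩ := Pool.Agent.Q332.HinProx.solution_of_periodic (A := ∅)
    (p := 1) (c := fun m : ℕ => col R c n (2 ^ i * m)) (Gr.of_comp hc') Nat.one_pos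
    (fun L N => by
      obtain ⟨m, hm, h1⟩ := key (L + 1) N
      refine ⟨m, hm, fun j hj => ?_⟩
      show col R c n (2 ^ i * (m + j + 1)) = col R c n (2 ^ i * (m + j))
      rw [h1 j (by omega), add_assoc, h1 (j + 1) (by omega)])
  have hdec : ComputablePred fun x => x ∈ X :=
    RE.cp_of_re (re_of_empty (computes_set.1 hX).1) (re_of_empty (computes_set.1 hX).2)
  have hinj : Function.Injective fun x : ℕ => 2 ^ i * x := fun a b hab =>
    Nat.eq_of_mul_eq_mul_left (by positivity) hab
  refine ⟨(fun x : ℕ => 2 ^ i * x) '' X, ⟨hinf.image hinj.injOn, ?_, j, ?_⟩, ?_⟩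
  · rintro ⟨x, hx, hx0⟩
    have hx0' : 2 ^ i * x = 0 := hx0
    rcases Nat.mul_eq_zero.1 hx0' with h1 | h1
    · exact absurd h1 (by positivity)
    · exact h0 (h1 ▸ hx)
  · intro F hF hne
    obtain ⟨G, hG, rfl⟩ := Finset.subset_set_image_iff.1 hF
    rw [Finset.sum_image fun a _ b _ hab => hinj hab, ← Finset.mul_sum]
    exact hj G hG (Finset.image_nonempty.1 hne)
  · have h1 : ComputablePred fun x : ℕ => x % 2 ^ i = 0 ∧ x / 2 ^ i ∈ X := by
      have c1 : ComputablePred fun x : ℕ => x % 2 ^ i = 0 :=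
        RE.cp_eq (Primrec.nat_mod.comp Primrec.id (Primrec.const _)).to_comp
          (Computable.const 0)
      have c2 : ComputablePred fun x : ℕ => x / 2 ^ i ∈ X :=
        RE.cp_comp hdec (Primrec.nat_div.comp Primrec.id (Primrec.const _)).to_comp
      refine RE.cp_of_re (RE.and c1.to_re c2.to_re) ?_
      refine (RE.or c1.not.to_re c2.not.to_re).of_eq fun x => ?_
      exact not_and_or.symm
    refine h1.of_eq fun x => ?_
    constructor
    · rintro ⟨h2, h3⟩
      exact ⟨x / 2 ^ i, h3, Nat.mul_div_cancel' (Nat.dvd_of_mod_eq_zero h2)⟩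
    · rintro ⟨y, hy, rfl⟩
      refine ⟨Nat.mul_mod_right _ _, ?_⟩
      show 2 ^ i * y / 2 ^ i ∈ X
      rwa [Nat.mul_div_cancel_left _ (by positivity : 0 < 2 ^ i)]

/-- if the `Σ⁰₃` statement fails, no new solutions arise, already for sums of two elements -/
theorem neg {c : ℕ → Fin k} {n : ℕ} (h : ¬ ∃ i, ∀ b, ∃ t, R n i b t = true) {r : ℕ∞}
    (hr : 2 ≤ r) {X : Set ℕ} (hX : Hom r (col R c n) X) : Hom r c X := by
  push Not at h
  obtain ⟨hinf, h0, j, hj⟩ := hX
  -- the marks of small type are bounded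
  choose b hb using h
  have hst : ∀ i, ∃ T, ∀ t, T ≤ t → g R n i (t + 1) = g R n i t := fun i =>
    g_stable (b := b i) (fun t => by simpa using hb i t)
  choose T hT using hst
  have hmk : ∀ v m, 2 ^ ((Finset.range (v + 1)).sup fun i => Nat.pair i (T i)) ≤ m →
      Mk R n m = true → 2 ^ (v + 1) ∣ m := by
    intro v m hm hM
    unfold Mk at hM
    rw [Bool.and_eq_true, Bool.and_eq_true, decide_eq_true_iff, decide_eq_true_iff,
      decide_eq_true_iff] at hM
    obtain ⟨h1, h2, -⟩ := hM
    have hv : v + 1 ≤ (lg m).unpair.1 := by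
      by_contra hcon
      have hmem : (lg m).unpair.1 ∈ Finset.range (v + 1) := Finset.mem_range.2 (by omega)
      have h3 : Nat.pair (lg m).unpair.1 (T (lg m).unpair.1) ≤
          (Finset.range (v + 1)).sup fun i => Nat.pair i (T i) :=
        Finset.le_sup (f := fun i => Nat.pair i (T i)) hmem
      have h4 : (lg m).unpair.2 < T (lg m).unpair.1 := by
        by_contra hcon2
        have := hT _ _ (not_lt.1 hcon2)
        omega
      have h5 : lg m < (Finset.range (v + 1)).sup fun i => Nat.pair i (T i) := by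
        refine lt_of_lt_of_le ?_ h3
        conv_lhs => rw [← Nat.pair_unpair (lg m)]
        exact Nat.pair_lt_pair_right _ h4
      have hm0 : 0 < m := lt_of_lt_of_le (by positivity) hm
      obtain ⟨m', rfl⟩ := Nat.exists_eq_succ_of_ne_zero hm0.ne'
      have h6 := (lg_spec m').2
      have h7 : 2 ^ (lg (m' + 1) + 1) ≤
          2 ^ ((Finset.range (v + 1)).sup fun i => Nat.pair i (T i)) :=
        Nat.pow_le_pow_right (by norm_num) h5
      simp only [Nat.succ_eq_add_one] at hm
      omega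
    exact (pow_dvd_pow 2 hv).trans (Nat.dvd_of_mod_eq_zero h2)
  have hone : ∀ x ∈ X, col R c n x = j := by
    intro x hx
    have := hj {x} (by simpa using hx) (Finset.singleton_nonempty _) (by
      rw [Finset.card_singleton]
      exact le_trans (by norm_num) hr)
    rwa [Finset.sum_singleton] at this
  have hlast : j ≠ Fin.last k := by
    rintro rfl
    have hmark : ∀ m, col R c n m = Fin.last k → Mk R n m = true := by
      intro m hm
      by_contra hcon
      rw [Bool.not_eq_true] at hcon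
      unfold col at hm
      rw [hcon, cond_false] at hm
      exact absurd hm (Fin.castSucc_lt_last _).ne
    obtain ⟨x, hx⟩ := hinf.nonempty
    have hx0 : 0 < x := Nat.pos_of_ne_zero fun h => h0 (h ▸ hx)
    obtain ⟨z, hz, hzb⟩ := hinf.exists_gt
      (x + 2 ^ ((Finset.range (x + 1)).sup fun i => Nat.pair i (T i)))
    have hB : 2 ^ ((Finset.range (x + 1)).sup fun i => Nat.pair i (T i)) ≤ z :=
      (Nat.le_add_left _ _).trans hzb.le
    have h1 : 2 ^ (x + 1) ∣ z := hmk x z hB (hmark z (hone z hz))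
    have h2 : 2 ^ (x + 1) ∣ x + z := by
      refine hmk x (x + z) (hB.trans (Nat.le_add_left _ _)) (hmark _ ?_)
      have hne : x ≠ z := (lt_of_le_of_lt (Nat.le_add_right _ _) hzb).ne
      have := hj {x, z} (by
        intro y hy
        simp only [Finset.coe_insert, Finset.coe_singleton, Set.mem_insert_iff,
          Set.mem_singleton_iff] at hy
        rcases hy with rfl | rfl <;> assumption) (Finset.insert_nonempty _ _) (by
        rw [Finset.card_pair hne]
        exact hr)
      rwa [Finset.sum_pair hne] at this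
    have h3 : 2 ^ (x + 1) ∣ x := (Nat.dvd_add_iff_left h1).2 h2
    have h4 := Nat.le_of_dvd hx0 h3
    have h5 : x < 2 ^ x := Nat.lt_two_pow_self
    rw [pow_succ] at h4
    omega
  obtain ⟨j', rfl⟩ := Fin.exists_castSucc_eq.2 hlast
  refine ⟨hinf, h0, j', fun F hF hne hcard => ?_⟩
  have h1 := hj F hF hne hcard
  unfold col at h1
  cases hM : Mk R n (∑ x ∈ F, x) with
  | true =>
    rw [hM, cond_true] at h1
    exact absurd h1.symm (Fin.castSucc_lt_last _).ne
  | false =>
    rw [hM, cond_false] at h1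
    exact Fin.castSucc_injective _ h1

end Pool.Agent.Q332.HinIndex
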