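import Pool.Agent.Q332.HinIndex

/-!
The index set of the computable colourings with a computable solution of Hindman's theorem is
`Σ⁰₃`.
-/

set_option autoImplicit false

namespace Pool.Agent.Q332.HinIndex

open Encodable Pool.Agent.Y545.HM Pool.Agent.Y545.HM.St Pool.Agent.Helper446
  Pool.Agent.Helper446.Defs Pool.Agent.Helper446.Oracle Nat.Partrec

variable {k : ℕ}

/-- sums and lengths of all sublists -/
def subs (vs : List ℕ) : List (ℕ × ℕ) :=
  vs.foldr (fun v S => S ++ S.map fun q => (q.1 + v, q.2 + 1)) [(0, 0)]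

theorem mem_subs (vs : List ℕ) (q : ℕ × ℕ) :
    q ∈ subs vs ↔ ∃ l : List ℕ, l.Sublist vs ∧ l.sum = q.1 ∧ l.length = q.2 := by
  induction vs generalizing q with
  | nil =>
    show q ∈ [((0 : ℕ), (0 : ℕ))] ↔ _
    constructor
    · intro h
      rw [List.mem_singleton] at h
      subst h
      exact ⟨[], List.Sublist.refl _, rfl, rfl⟩
    · rintro ⟨l, h1, h2, h3⟩
      rw [List.sublist_nil] at h1
      subst h1
      rw [List.mem_singleton]
      exact Prod.ext h2.symm h3.symm
  | cons v vs ih =>
    have e : subs (v :: vs) = subs vs ++ (subs vs).map fun q => (q.1 + v, q.2 + 1) := rfl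
    rw [e, List.mem_append, List.mem_map]
    constructor
    · rintro (h | ⟨q', h, rfl⟩)
      · obtain ⟨l, h1, h2, h3⟩ := (ih q).1 h
        exact ⟨l, h1.cons v, h2, h3⟩
      · obtain ⟨l, h1, h2, h3⟩ := (ih q').1 h
        refine ⟨v :: l, h1.cons_cons v, ?_, ?_⟩
        · rw [List.sum_cons, h2, add_comm]
        · rw [List.length_cons, h3]
    · rintro ⟨l, h1, h2, h3⟩
      rcases List.sublist_cons_iff.1 h1 with h4 | ⟨l', rfl, h4⟩
      · exact Or.inl ((ih q).2 ⟨l, h4, h2, h3⟩)
      · refine Or.inr ⟨(l'.sum, l'.length), (ih _).2 ⟨l', h4, rfl, rfl⟩, ?_⟩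
        rw [List.sum_cons] at h2
        rw [List.length_cons] at h3
        refine Prod.ext ?_ h3
        show l'.sum + v = q.1
        rw [← h2, add_comm]

theorem c_subs : Computable subs := by
  refine Primrec.to_comp ?_
  unfold subs
  refine Primrec.list_foldr (f := fun vs : List ℕ => vs) (g := fun _ => [((0 : ℕ), (0 : ℕ))])
    (h := fun _ (z : ℕ × List (ℕ × ℕ)) => z.2 ++ z.2.map fun q => (q.1 + z.1, q.2 + 1))
    Primrec.id (Primrec.const _) ?_
  refine Primrec.list_append.comp (Primrec.snd.comp Primrec.snd) ?_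
  refine Primrec.list_map (Primrec.snd.comp Primrec.snd) ?_
  refine Primrec.pair ?_ ?_
  · exact Primrec.nat_add.comp (Primrec.fst.comp Primrec.snd)
      (Primrec.fst.comp (Primrec.snd.comp Primrec.fst))
  · exact Primrec.succ.comp (Primrec.snd.comp Primrec.snd)

theorem c_ok (r : ℕ∞) : Computable fun q : ℕ => decide ((q : ℕ∞) ≤ r) := by
  induction r using ENat.recTopCoe with
  | top => exact (Computable.const true).of_eq fun q => by simp
  | coe r =>
    have h : Primrec fun q : ℕ => decide (q ≤ r) :=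
      Primrec.nat_le.decide.comp Primrec.id (Primrec.const r)
    exact h.to_comp.of_eq fun q => by simp

theorem re_eval {α : Type*} [Primcodable α] {e : α → Code} {p u : α → ℕ} (he : Computable e)
    (hp : Computable p) (hu : Computable u) : REPred fun a => u a ∈ (e a).eval (p a) := by
  refine RE.re_of_proj (fun a s => decide (Code.evaln s (e a) (p a) = some (u a))) ?_ ?_
  · have h1 : Computable fun x : α × ℕ => Code.evaln x.2 (e x.1) (p x.1) :=
      Code.primrec_evaln.to_comp.comp
        (g := fun x : α × ℕ => ((x.2, e x.1), p x.1))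
        ((Computable.snd.pair (he.comp Computable.fst)).pair (hp.comp Computable.fst))
    have h2 : Computable fun x : α × ℕ => some (u x.1) :=
      Computable.option_some.comp (hu.comp Computable.fst)
    have h3 : Computable fun y : Option ℕ × Option ℕ => decide (y.1 = y.2) :=
      (Primrec.eq (α := Option ℕ)).decide.to_comp
    exact h3.comp (h1.pair h2)
  · intro a
    rw [Code.evaln_complete]
    simp only [decide_eq_true_iff]
    rfl

/-- the matrix of the `Σ⁰₃` definition -/
def P (r : ℕ∞) (c : ℕ → ℕ → Fin k) (x : ℕ × ℕ × ℕ) : Prop :=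
  ∃ vs : List ℕ, vs.length = x.2.2 + 1 ∧
    (∀ p < x.2.2 + 1, ∃ u : ℕ, vs[p]? = some u ∧
      u ∈ (Denumerable.ofNat Code x.2.1.unpair.1).eval p) ∧
    (∃ u : ℕ, vs[0]? = some u ∧ 0 < u) ∧
    (∀ p < x.2.2, ∃ u : ℕ × ℕ, vs[p]? = some u.1 ∧ vs[p + 1]? = some u.2 ∧ u.1 < u.2) ∧
    ∀ q ∈ subs vs, q.2 < 1 ∨ decide ((q.2 : ℕ∞) ≤ r) = false ∨ (c x.1 q.1).val = x.2.1.unpair.2

theorem re_P (r : ℕ∞) {c : ℕ → ℕ → Fin k} (hc : Computable fun p : ℕ × ℕ => c p.1 p.2) :
    REPred (P r c) := by
  unfold P
  refine RE.ex (p := fun (x : ℕ × ℕ × ℕ) (vs : List ℕ) => vs.length = x.2.2 + 1 ∧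
    (∀ p < x.2.2 + 1, ∃ u : ℕ, vs[p]? = some u ∧
      u ∈ (Denumerable.ofNat Code x.2.1.unpair.1).eval p) ∧
    (∃ u : ℕ, vs[0]? = some u ∧ 0 < u) ∧
    (∀ p < x.2.2, ∃ u : ℕ × ℕ, vs[p]? = some u.1 ∧ vs[p + 1]? = some u.2 ∧ u.1 < u.2) ∧
    ∀ q ∈ subs vs, q.2 < 1 ∨ decide ((q.2 : ℕ∞) ≤ r) = false ∨
      (c x.1 q.1).val = x.2.1.unpair.2) ?_
  refine RE.and (RE.eq (Computable.list_length.comp Computable.snd) (by fun_prop)) ?_
  refine RE.and ?_ (RE.and ?_ (RE.and ?_ ?_))
  · refine RE.all_lt (p := fun (y : (ℕ × ℕ × ℕ) × List ℕ) (p : ℕ) => ∃ u : ℕ,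
      y.2[p]? = some u ∧ u ∈ (Denumerable.ofNat Code y.1.2.1.unpair.1).eval p) ?_ (by fun_prop)
    refine RE.ex (p := fun (y : ((ℕ × ℕ × ℕ) × List ℕ) × ℕ) (u : ℕ) =>
      y.1.2[y.2]? = some u ∧ u ∈ (Denumerable.ofNat Code y.1.1.2.1.unpair.1).eval y.2) ?_
    refine RE.and (RE.eq ?_ (by fun_prop)) ?_
    · exact Computable.list_getElem?.comp (by fun_prop) (by fun_prop)
    · refine re_eval ?_ (by fun_prop) (by fun_prop)
      exact (Computable.ofNat Code).comp (by fun_prop)
  · refine RE.ex (p := fun (y : (ℕ × ℕ × ℕ) × List ℕ) (u : ℕ) => y.2[0]? = some u ∧ 0 < u) ?_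
    refine RE.and (RE.eq ?_ (by fun_prop)) (RE.lt (by fun_prop) (by fun_prop))
    exact Computable.list_getElem?.comp (by fun_prop) (Computable.const 0)
  · refine RE.all_lt (p := fun (y : (ℕ × ℕ × ℕ) × List ℕ) (p : ℕ) => ∃ u : ℕ × ℕ,
      y.2[p]? = some u.1 ∧ y.2[p + 1]? = some u.2 ∧ u.1 < u.2) ?_ (by fun_prop)
    refine RE.ex (p := fun (y : ((ℕ × ℕ × ℕ) × List ℕ) × ℕ) (u : ℕ × ℕ) =>
      y.1.2[y.2]? = some u.1 ∧ y.1.2[y.2 + 1]? = some u.2 ∧ u.1 < u.2) ?_
    refine RE.and (RE.eq ?_ (by fun_prop)) (RE.and (RE.eq ?_ (by fun_prop)) ?_)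
    · exact Computable.list_getElem?.comp (by fun_prop) (by fun_prop)
    · exact Computable.list_getElem?.comp (by fun_prop) (by fun_prop)
    · exact RE.lt (by fun_prop) (by fun_prop)
  · refine RE.all_mem (p := fun (y : (ℕ × ℕ × ℕ) × List ℕ) (q : ℕ × ℕ) => q.2 < 1 ∨
      decide ((q.2 : ℕ∞) ≤ r) = false ∨ (c y.1.1 q.1).val = y.1.2.1.unpair.2)
      (l := fun y : (ℕ × ℕ × ℕ) × List ℕ => subs y.2) ?_ (c_subs.comp Computable.snd)
    refine RE.or (RE.lt (by fun_prop) (by fun_prop)) (RE.or (RE.eq ?_ (Computable.const _))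
      (RE.eq ?_ (by fun_prop)))
    · exact (c_ok r).comp (by fun_prop)
    · exact Primrec.fin_val.to_comp.comp (hc.comp
        (g := fun y : ((ℕ × ℕ × ℕ) × List ℕ) × (ℕ × ℕ) => (y.1.1.1, y.2.1)) (by fun_prop))

theorem exists_increasing {X : Set ℕ} (hX : ComputablePred fun x => x ∈ X) (hinf : X.Infinite)
    (h0 : 0 ∉ X) : ∃ x : ℕ → ℕ, Computable x ∧ StrictMono x ∧ 0 < x 0 ∧ ∀ n, x n ∈ X := by
  have h1 : REIn (∅ : Set ℕ) fun y : ℕ × ℕ => y.1 < y.2 ∧ y.2 ∈ X :=
    REIn.of_re (RE.and (RE.lt Computable.fst Computable.snd)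
      (RE.cp_comp hX Computable.snd).to_re)
  obtain ⟨f, hf, hf2⟩ := choice (A := ∅) (R := fun a b : ℕ => a < b ∧ b ∈ X) h1
    (fun a => by
      obtain ⟨b, hb, hab⟩ := hinf.exists_gt a
      exact ⟨b, hab, hb⟩)
  have h2 : Gr (∅ : Set ℕ) fun n : ℕ => f^[n] (f 0) := Gr.iter hf (f 0)
  refine ⟨fun n => f^[n] (f 0), RE.computable_of_graph (re_of_empty h2), ?_, ?_, ?_⟩
  · refine strictMono_nat_of_lt_succ fun n => ?_
    show f^[n] (f 0) < f^[n + 1] (f 0)
    rw [Function.iterate_succ_apply']
    exact (hf2 _).1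
  · exact (hf2 0).1
  · intro n
    show f^[n] (f 0) ∈ X
    rcases n with _ | n
    · exact (hf2 0).2
    · rw [Function.iterate_succ_apply']
      exact (hf2 _).2

/-- the index set is `Σ⁰₃` -/
theorem upper (r : ℕ∞) {c : ℕ → ℕ → Fin k} (hc : Computable fun p : ℕ × ℕ => c p.1 p.2) :
    ∃ R : ℕ → ℕ → ℕ → ℕ → Bool,
      Computable (fun x : ℕ × ℕ × ℕ × ℕ => R x.1 x.2.1 x.2.2.1 x.2.2.2) ∧
      ∀ n, (∃ X, Hom r (c n) X ∧ ComputablePred fun x => x ∈ X) ↔
        ∃ a, ∀ b, ∃ t, R n a b t = true := by
  obtain ⟨q, hq, hq2⟩ := RE.re_iff.1 (re_P r hc)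
  refine ⟨fun n a b t => q (n, a, b) t, ?_, fun n => ?_⟩
  · exact hq.comp (g := fun x : ℕ × ℕ × ℕ × ℕ => (x.1, x.2.1, x.2.2.1))
      (h := fun x : ℕ × ℕ × ℕ × ℕ => x.2.2.2) (by fun_prop) (by fun_prop)
  have hiff : (∃ a, ∀ b, ∃ t, q (n, a, b) t = true) ↔ ∃ a, ∀ b, P r c (n, a, b) := by
    simp only [hq2]
  rw [hiff]
  constructor
  · rintro ⟨X, ⟨hinf, h0, j, hj⟩, hX⟩
    obtain ⟨x, hx, hmono, hx0, hxX⟩ := exists_increasing hX hinf h0
    obtain ⟨e, he⟩ := Code.exists_code.1 (Partrec.nat_iff.1 hx.partrec)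
    refine ⟨Nat.pair (encode e) j.val, fun m => ?_⟩
    refine ⟨(List.range (m + 1)).map x, by simp, ?_, ?_, ?_, ?_⟩
    · intro p hp
      refine ⟨x p, ?_, ?_⟩
      · rw [List.getElem?_map, List.getElem?_range hp]
        rfl
      · simp only [Nat.unpair_pair, Denumerable.ofNat_encode]
        rw [he]
        exact Part.mem_some _
    · exact ⟨x 0, by rw [List.getElem?_map, List.getElem?_range (Nat.succ_pos m)]; rfl, hx0⟩
    · intro p hp
      refine ⟨(x p, x (p + 1)), ?_, ?_, hmono (Nat.lt_succ_self p)⟩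
      · rw [List.getElem?_map, List.getElem?_range (Nat.lt_succ_of_lt hp)]
        rfl
      · rw [List.getElem?_map, List.getElem?_range (Nat.succ_lt_succ hp)]
        rfl
    · intro z hz
      obtain ⟨l, h1, h2, h3⟩ := (mem_subs _ z).1 hz
      obtain ⟨l', h4, rfl⟩ := List.sublist_map_iff.1 h1
      have hnd : l'.Nodup := h4.nodup List.nodup_range
      rcases Nat.lt_or_ge z.2 1 with h5 | h5
      · exact Or.inl h5
      · right
        by_cases h6 : (z.2 : ℕ∞) ≤ r
        · right
          have h7 := hj (l'.toFinset.image x) (by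
            intro y hy
            obtain ⟨i, -, rfl⟩ := Finset.mem_image.1 (Finset.mem_coe.1 hy)
            exact hxX i) (by
            refine Finset.Nonempty.image ?_ x
            rw [List.toFinset_nonempty_iff]
            rintro rfl
            simp only [List.map_nil, List.length_nil] at h3
            omega) (by
            rw [Finset.card_image_of_injective _ hmono.injective,
              List.toFinset_card_of_nodup hnd]
            rw [List.length_map] at h3
            rw [h3]
            exact h6)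
          rw [Finset.sum_image fun a _ b _ hab => hmono.injective hab,
            List.sum_toFinset x hnd, h2] at h7
          simp only [Nat.unpair_pair]
          rw [h7]
        · left
          exact decide_eq_false h6
  · rintro ⟨a, ha⟩
    choose vs hlen hev h0 hlt hsub using ha
    simp only at hlen hev h0 hlt hsub
    -- the values
    have hval : ∀ p, ∃ u, u ∈ (Denumerable.ofNat Code a.unpair.1).eval p := by
      intro p
      obtain ⟨u, -, hu⟩ := hev p p (Nat.lt_succ_self p)
      exact ⟨u, hu⟩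
    choose x hx using hval
    have hvx : ∀ m p, p < m + 1 → (vs m)[p]? = some (x p) := by
      intro m p hp
      obtain ⟨u, h1, h2⟩ := hev m p hp
      rw [h1, Part.mem_unique h2 (hx p)]
    have hvs : ∀ m, vs m = (List.range (m + 1)).map x := by
      intro m
      refine List.ext_getElem? fun p => ?_
      rcases Nat.lt_or_ge p (m + 1) with hp | hp
      · rw [hvx m p hp, List.getElem?_map, List.getElem?_range hp]
        rfl
      · rw [List.getElem?_eq_none (by rw [hlen]; exact hp),
          List.getElem?_eq_none (by simpa using hp)]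
    have hmono : StrictMono x := by
      refine strictMono_nat_of_lt_succ fun p => ?_
      obtain ⟨u, h1, h2, h3⟩ := hlt (p + 1) p (Nat.lt_succ_self p)
      rw [hvx (p + 1) p (by omega)] at h1
      rw [hvx (p + 1) (p + 1) (by omega)] at h2
      rw [Option.some.inj h1, Option.some.inj h2]
      exact h3
    have hx0 : 0 < x 0 := by
      obtain ⟨u, h1, h2⟩ := h0 0
      rw [hvx 0 0 (by omega)] at h1
      rw [Option.some.inj h1]
      exact h2
    have hxc : Computable x := by
      have h1 : Partrec fun p : ℕ => (Denumerable.ofNat Code a.unpair.1).eval p :=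
        Code.eval_part.comp (Computable.const _) Computable.id
      exact h1.of_eq_tot hx
    have hcol : ∀ G : Finset ℕ, G.Nonempty → (G.card : ℕ∞) ≤ r →
        (c n (∑ i ∈ G, x i)).val = a.unpair.2 := by
      intro G hG hcard
      let l := (List.range (G.sup id + 1)).filter (· ∈ G)
      have hl : l.toFinset = G := by
        ext i
        simp only [l, List.mem_toFinset, List.mem_filter, List.mem_range, decide_eq_true_iff]
        constructor
        · exact fun h => h.2
        · intro h
          have : i ≤ G.sup id := Finset.le_sup (f := id) h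
          exact ⟨by omega, h⟩
      have hnd : l.Nodup := List.nodup_range.filter _
      have hlen' : l.length = G.card := by rw [← List.toFinset_card_of_nodup hnd, hl]
      have hs : (l.map x).sum = ∑ i ∈ G, x i := by
        rw [← List.sum_toFinset x hnd, hl]
      have hmem : (∑ i ∈ G, x i, G.card) ∈ subs (vs (G.sup id)) := by
        rw [mem_subs, hvs]
        exact ⟨l.map x, List.filter_sublist.map x, hs, by rw [List.length_map, hlen']⟩
      have hpos : 0 < G.card := Finset.card_pos.2 hG
      rcases hsub _ _ hmem with h1 | h1 | h1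
      · simp only at h1
        omega
      · simp only [decide_eq_false_iff_not] at h1
        exact absurd hcard h1
      · exact h1
    have hdec := range_dec (A := (∅ : Set ℕ)) (Gr.of_comp hxc) hmono
    refine ⟨Set.range x, ⟨Set.infinite_range_of_injective hmono.injective, ?_, c n (x 0), ?_⟩,
      RE.cp_of_re (re_of_empty hdec.1) (re_of_empty hdec.2)⟩
    · rintro ⟨i, hi⟩
      have : x 0 ≤ x i := hmono.monotone (Nat.zero_le i)
      omega
    · intro F hF hne hcard
      classical
      have hG : (F.preimage x hmono.injective.injOn).image x = F := by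
        rw [Finset.image_preimage]
        ext b
        simp only [Finset.mem_filter]
        constructor
        · exact fun h => h.1
        · exact fun h => ⟨h, hF h⟩
      have hcard' : (F.preimage x hmono.injective.injOn).card = F.card := by
        rw [← Finset.card_image_of_injective _ hmono.injective, hG]
      have hne' : (F.preimage x hmono.injective.injOn).Nonempty := by
        rw [← Finset.card_pos, hcard']
        exact Finset.card_pos.2 hne
      have h1 := hcol _ hne' (by rw [hcard']; exact hcard)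
      rw [← Finset.sum_image (f := fun y => y) fun a _ b _ hab => hmono.injective hab, hG] at h1
      have h2 := hcol {0} (Finset.singleton_nonempty _) (by
        rw [Finset.card_singleton]
        have : 1 ≤ F.card := Finset.card_pos.2 hne
        exact le_trans (by exact_mod_cast this) hcard)
      rw [Finset.sum_singleton] at h2
      exact Fin.ext (h1.trans h2.symm)

end Pool.Agent.Q332.HinIndex
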