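import Pool.Agent.Y545.HM.St
import Pool.Agent.H645R2.HT.Univ

/-!
Hindman's theorem and jointly recurrent points.
-/

set_option autoImplicit false

namespace Pool.Agent.Q332.HinProx

open Pool.Agent.Y545.HM Pool.Agent.Y545.HM.St Pool.Agent.Helper446
  Pool.Agent.Helper446.Defs Pool.Agent.Helper446.Oracle

variable {k : ℕ}

/-- The point `y` is recurrent jointly with `c`: at arbitrarily large positions `m`, the
sequence `c` agrees with `y` on a long interval, and both repeat the beginning of `y`. -/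
def JR (c y : ℕ → Fin k) : Prop :=
  ∀ L N, ∃ m, N ≤ m ∧ ∀ j ≤ L, c (m + j) = y (m + j) ∧ y (m + j) = y j

/-- partial sums of the greedy sequence -/
def ps (f : ℕ → ℕ) : ℕ → ℕ := fun n => (fun s => s + f s)^[n] 0

theorem ps_zero (f : ℕ → ℕ) : ps f 0 = 0 := rfl

theorem ps_succ (f : ℕ → ℕ) (n : ℕ) : ps f (n + 1) = ps f n + f (ps f n) := by
  unfold ps
  rw [Function.iterate_succ_apply']

theorem le_ps {f : ℕ → ℕ} (hf : ∀ s, s < f s) (n : ℕ) : n ≤ ps f n := by
  induction n with
  | zero => exact Nat.zero_le _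
  | succ n ih =>
    rw [ps_succ]
    have := hf (ps f n)
    omega

theorem sum_le_ps (f : ℕ → ℕ) (n : ℕ) (F : Finset ℕ) (hF : ∀ i ∈ F, i < n) :
    ∑ i ∈ F, f (ps f i) ≤ ps f n := by
  have h1 : ∑ i ∈ Finset.range n, f (ps f i) = ps f n := by
    clear hF
    induction n with
    | zero => rfl
    | succ n ih => rw [Finset.sum_range_succ, ih, ps_succ]
  rw [← h1]
  exact Finset.sum_le_sum_of_subset fun i hi => Finset.mem_range.2 (hF i hi)

/-- the greedy sequence solves the problem for all translates -/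
theorem greedy {c y : ℕ → Fin k} {f : ℕ → ℕ}
    (hf : ∀ L, L < f L ∧ ∀ j < L + 1, c (f L + j) = y (f L + j) ∧ y (f L + j) = y j) :
    ∀ (n : ℕ) (j : ℕ) (F : Finset ℕ), (∀ i ∈ F, i < n) → (∀ i ∈ F, j ≤ i) →
      y (j + ∑ i ∈ F, f (ps f i)) = y j ∧
        (F.Nonempty → c (j + ∑ i ∈ F, f (ps f i)) = y j) := by
  intro n
  induction n with
  | zero =>
    intro j F hF _
    have : F = ∅ := Finset.eq_empty_of_forall_notMem fun i hi => absurd (hF i hi) (by omega)
    subst this
    simp
  | succ n ih =>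
    intro j F hF hj
    by_cases hn : n ∈ F
    · have hF' : ∀ i ∈ F.erase n, i < n := fun i hi => by
        have := hF i (Finset.mem_of_mem_erase hi)
        have := Finset.ne_of_mem_erase hi
        omega
      have hjn : j ≤ n := hj n hn
      by_cases he : (F.erase n).Nonempty
      · -- j and the smaller sum
        have hs : j + ∑ i ∈ F.erase n, f (ps f i) ≤ ps f n := by
          -- j is at most ps f of the smallest index
          obtain ⟨i0, hi0, hmin⟩ := Finset.exists_min_image (F.erase n) id he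
          have h1 : j ≤ ps f i0 :=
            (hj i0 (Finset.mem_of_mem_erase hi0)).trans (le_ps (fun s => (hf s).1) i0)
          have h2 : ∑ i ∈ Finset.range i0, f (ps f i) = ps f i0 := by
            clear hmin hi0 h1
            induction i0 with
            | zero => rfl
            | succ n ih => rw [Finset.sum_range_succ, ih, ps_succ]
          have hdis : Disjoint (Finset.range i0) (F.erase n) := by
            rw [Finset.disjoint_left]
            intro i hi hi'
            have h3 := hmin i hi'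
            simp only [id] at h3
            have h4 := Finset.mem_range.1 hi
            omega
          have h5 := sum_le_ps f n (Finset.range i0 ∪ F.erase n) (by
            intro i hi
            rcases Finset.mem_union.1 hi with hi | hi
            · have h4 := Finset.mem_range.1 hi
              have h6 := hF' i0 hi0
              omega
            · exact hF' i hi)
          rw [Finset.sum_union hdis, h2] at h5
          omega
        have hsum : ∑ i ∈ F, f (ps f i) = f (ps f n) + ∑ i ∈ F.erase n, f (ps f i) :=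
          (Finset.add_sum_erase F _ hn).symm
        have h7 : j + ∑ i ∈ F, f (ps f i) =
            f (ps f n) + (j + ∑ i ∈ F.erase n, f (ps f i)) := by
          rw [hsum]; ring
        obtain ⟨h8, h9⟩ := (hf (ps f n)).2 (j + ∑ i ∈ F.erase n, f (ps f i)) (by omega)
        obtain ⟨h10, -⟩ := ih j (F.erase n) hF' fun i hi => hj i (Finset.mem_of_mem_erase hi)
        rw [h7]
        refine ⟨h9.trans h10, fun _ => ?_⟩
        rw [h8, h9, h10]
      · rw [Finset.not_nonempty_iff_eq_empty] at he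
        have hsum : ∑ i ∈ F, f (ps f i) = f (ps f n) := by
          rw [← Finset.add_sum_erase F _ hn, he, Finset.sum_empty, add_zero]
        have hs : j ≤ ps f n := hjn.trans (le_ps (fun s => (hf s).1) n)
        obtain ⟨h8, h9⟩ := (hf (ps f n)).2 j (by omega)
        rw [hsum, add_comm j]
        exact ⟨h9, fun _ => h8.trans h9⟩
    · exact ih j F (fun i hi => by
        have := hF i hi
        have : i ≠ n := fun h => hn (h ▸ hi)
        omega) hj

variable {A : Set ℕ}

theorem re_step {c y : ℕ → Fin k} (hc : Gr A c) (hy : Gr A y) :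
    REIn A fun x : ℕ × ℕ => x.1 < x.2 ∧
      ∀ j < x.1 + 1, c (x.2 + j) = y (x.2 + j) ∧ y (x.2 + j) = y j := by
  refine REIn.and (REIn.of_re (RE.lt (by fun_prop) (by fun_prop))) ?_
  refine REIn.all_lt (S := fun (x : ℕ × ℕ) (j : ℕ) =>
    c (x.2 + j) = y (x.2 + j) ∧ y (x.2 + j) = y j) ?_ (by fun_prop)
  refine REIn.and ?_ ?_
  · have h1 : Gr A fun x : (ℕ × ℕ) × ℕ => (c (x.1.2 + x.2), y (x.1.2 + x.2)) :=
      (hc.pre (g := fun x : (ℕ × ℕ) × ℕ => x.1.2 + x.2) (by fun_prop)).pair
        (hy.pre (g := fun x : (ℕ × ℕ) × ℕ => x.1.2 + x.2) (by fun_prop))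
    exact re_gr (S := fun q : Fin k × Fin k => q.1 = q.2)
      (REIn.of_re (RE.eq (by fun_prop) (by fun_prop))) h1
  · have h1 : Gr A fun x : (ℕ × ℕ) × ℕ => (y (x.1.2 + x.2), y x.2) :=
      (hy.pre (g := fun x : (ℕ × ℕ) × ℕ => x.1.2 + x.2) (by fun_prop)).pair
        (hy.pre (g := fun x : (ℕ × ℕ) × ℕ => x.2) (by fun_prop))
    exact re_gr (S := fun q : Fin k × Fin k => q.1 = q.2)
      (REIn.of_re (RE.eq (by fun_prop) (by fun_prop))) h1

/-- the sequence for all translates -/
theorem exists_seq {c y : ℕ → Fin k} (hc : Gr A c) (hy : Gr A y) (h : JR c y) :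
    ∃ x : ℕ → ℕ, Gr A x ∧ StrictMono x ∧ 0 < x 0 ∧
      ∀ (j : ℕ) (F : Finset ℕ), F.Nonempty → (∀ i ∈ F, j ≤ i) →
        c (j + ∑ i ∈ F, x i) = y j := by
  obtain ⟨f, hf, hf2⟩ := choice (A := A) (R := fun L m : ℕ => L < m ∧
    ∀ j < L + 1, c (m + j) = y (m + j) ∧ y (m + j) = y j) (re_step hc hy) (fun L => by
    obtain ⟨m, hm, h2⟩ := h L (L + 1)
    exact ⟨m, by omega, fun j hj => h2 j (by omega)⟩)
  refine ⟨fun n => f (ps f n), ?_, ?_, ?_, ?_⟩
  · have h1 : Gr A fun s : ℕ => s + f s :=
      Gr.post (g := fun q : ℕ × ℕ => q.1 + q.2) (by fun_prop)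
        ((Gr.of_comp (f := fun s : ℕ => s) (by fun_prop)).pair hf)
    have h2 : Gr A (ps f) := Gr.iter h1 0
    exact hf.comp h2
  · refine strictMono_nat_of_lt_succ fun n => ?_
    have h1 := (hf2 (ps f (n + 1))).1
    rw [ps_succ] at h1 ⊢
    exact lt_of_le_of_lt (Nat.le_add_left _ _) h1
  · have := (hf2 (ps f 0)).1
    show 0 < f (ps f 0)
    omega
  · intro j F hne hj
    exact (greedy hf2 (F.sup id + 1) j F (fun i hi => by
      have : i ≤ F.sup id := Finset.le_sup (f := id) hi
      omega) hj).2 hne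

theorem sol_of_seq {c : ℕ → Fin k} {x : ℕ → ℕ} {b : Fin k} (hx : Gr A x) (hm : StrictMono x)
    (h0 : 0 < x 0) (h : ∀ F : Finset ℕ, F.Nonempty → c (∑ i ∈ F, x i) = b) :
    ∃ X, Solution c X ∧ Computes A (char X) := by
  classical
  refine ⟨Set.range x, ⟨Set.infinite_range_of_injective hm.injective, ?_, b, ?_⟩,
    computes_set.2 (range_dec hx hm)⟩
  · rintro ⟨i, hi⟩
    have : x 0 ≤ x i := hm.monotone (Nat.zero_le i)
    omega
  · intro F hF hne
    obtain ⟨G, hG⟩ : ∃ G : Finset ℕ, G.image x = F := by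
      refine ⟨F.preimage x hm.injective.injOn, ?_⟩
      rw [Finset.image_preimage]
      ext a
      simp only [Finset.mem_filter]
      constructor
      · exact fun h => h.1
      · exact fun h => ⟨h, hF h⟩
    subst hG
    rw [Finset.sum_image fun a _ b _ hab => hm.injective hab]
    exact h G (Finset.image_nonempty.1 hne)

theorem solution_of_jr {c y : ℕ → Fin k} (hc : Gr A c) (hy : Gr A y) (h : JR c y) :
    ∃ X, Solution c X ∧ Computes A (char X) := by
  obtain ⟨x, h1, h2, h3, h4⟩ := exists_seq hc hy h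
  refine sol_of_seq (b := y 0) h1 h2 h3 fun F hF => ?_
  have := h4 0 F hF fun i _ => Nat.zero_le i
  rwa [Nat.zero_add] at this

theorem jr_of_seq {c y : ℕ → Fin k} {x : ℕ → ℕ} (hm : StrictMono x)
    (h : ∀ (j : ℕ) (F : Finset ℕ), F.Nonempty → (∀ i ∈ F, j ≤ i) →
      c (j + ∑ i ∈ F, x i) = y j) : JR c y := by
  intro L N
  refine ⟨x (max L N), (le_max_right L N).trans (hm.id_le _), fun j hj => ?_⟩
  have hjm : j ≤ max L N := hj.trans (le_max_left _ _)
  have h1 : c (x (max L N) + j) = y j := by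
    have := h j {max L N} (Finset.singleton_nonempty _) fun i hi => by
      rw [Finset.mem_singleton] at hi
      omega
    rwa [Finset.sum_singleton, add_comm] at this
  have h2 : y (x (max L N) + j) = y j := by
    have hlt : max L N < x (max L N) + j + 1 := by
      have := hm.id_le (max L N)
      simp only [id] at this
      omega
    have h3 := h (x (max L N) + j) {x (max L N) + j + 1} (Finset.singleton_nonempty _)
      fun i hi => by
        rw [Finset.mem_singleton] at hi
        omega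
    have h4 := h j {max L N, x (max L N) + j + 1} (Finset.insert_nonempty _ _) fun i hi => by
      rw [Finset.mem_insert, Finset.mem_singleton] at hi
      omega
    rw [Finset.sum_singleton] at h3
    rw [Finset.sum_pair (by omega)] at h4
    rw [← h3, ← h4]
    congr 1
    ring
  exact ⟨h1.trans h2.symm, h2⟩

/-- uniformly recurrent points which are proximal to `c` are jointly recurrent with `c` -/
theorem jr_of_proximal {c y : ℕ → Fin k}
    (hu : ∀ L, ∃ G, ∀ N, ∃ m, N ≤ m ∧ m ≤ N + G ∧ ∀ j ≤ L, y (m + j) = y j)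
    (hp : ∀ L N, ∃ m, N ≤ m ∧ ∀ j ≤ L, c (m + j) = y (m + j)) : JR c y := by
  intro L N
  obtain ⟨G, hG⟩ := hu L
  obtain ⟨m, hm, h1⟩ := hp (G + L) N
  obtain ⟨m', h2, h3, h4⟩ := hG m
  refine ⟨m', by omega, fun j hj => ⟨?_, h4 j hj⟩⟩
  have := h1 (m' - m + j) (by omega)
  have e : m + (m' - m + j) = m' + j := by omega
  rwa [e] at this

/-- `y` changed below `M` -/
def patch {M : ℕ} (w : Fin M → Fin k) (c : ℕ → Fin k) (n : ℕ) : Fin k :=
  if h : n < M then w ⟨n, h⟩ else c n

/-- a colouring which is recurrent from `M` on -/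
theorem jr_of_recurrent {c : ℕ → Fin k} (M : ℕ)
    (h : ∀ L N, ∃ m, N ≤ m ∧ ∀ j, M ≤ j → j ≤ L → c (m + j) = c j) :
    ∃ w : Fin M → Fin k, JR c (patch w c) := by
  choose m hm h1 using fun n : ℕ => h n (n + M)
  obtain ⟨w, hw⟩ := Finite.exists_infinite_fiber fun n => fun r : Fin M => c (m n + r)
  refine ⟨w, fun L N => ?_⟩
  have hw' : ((fun n => fun r : Fin M => c (m n + r)) ⁻¹' {w}).Infinite :=
    Set.infinite_coe_iff.1 hw
  obtain ⟨n, hn, hn2⟩ := hw'.exists_gt (max L N)
  have e : (fun r : Fin M => c (m n + r)) = w := hn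
  refine ⟨m n, by have := hm n; omega, fun j hj => ?_⟩
  have hmn := hm n
  have h3 : ¬ m n + j < M := by omega
  have h4 : patch w c (m n + j) = c (m n + j) := dif_neg h3
  rw [h4]
  refine ⟨rfl, ?_⟩
  by_cases hj0 : j < M
  · have h5 : patch w c j = w ⟨j, hj0⟩ := dif_pos hj0
    rw [h5, ← e]
  · have h5 : patch w c j = c j := dif_neg hj0
    rw [h5]
    exact h1 n j (by omega) (by omega)

/-- long periodic factors -/
theorem jr_of_periodic {c : ℕ → Fin k} {p : ℕ} (hp : 0 < p)
    (h : ∀ L N, ∃ m, N ≤ m ∧ ∀ j ≤ L, c (m + j + p) = c (m + j)) :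
    ∃ w : Fin p → Fin k, JR c fun n => w ⟨n % p, Nat.mod_lt n hp⟩ := by
  have key : ∀ n : ℕ, ∃ q, n ≤ q ∧ ∀ j ≤ n, c (p * q + j) = c (p * q + j % p) := by
    intro n
    obtain ⟨m, hm, h1⟩ := h (n + p) (p * n)
    -- the least multiple of `p` which is at least `m`
    refine ⟨m / p + 1, ?_, ?_⟩
    · have : n ≤ m / p := (Nat.le_div_iff_mul_le hp).2 (by rw [mul_comm]; exact hm)
      omega
    · have h2 : m ≤ p * (m / p + 1) := by
        have := Nat.div_add_mod m p
        have := Nat.mod_lt m hp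
        rw [mul_add]
        omega
      have h3 : p * (m / p + 1) ≤ m + p := by
        have := Nat.div_add_mod m p
        rw [mul_add]
        omega
      have h4 : ∀ j, j ≤ n → c (p * (m / p + 1) + j) = c (p * (m / p + 1) + j % p) := by
        intro j
        induction j using Nat.strong_induction_on with
        | _ j ih =>
          intro hj
          rcases Nat.lt_or_ge j p with hlt | hge
          · rw [Nat.mod_eq_of_lt hlt]
          · have h5 := ih (j - p) (by omega) (by omega)
            have h6 := h1 (p * (m / p + 1) - m + (j - p)) (by omega)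
            have e1 : m + (p * (m / p + 1) - m + (j - p)) + p = p * (m / p + 1) + j := by omega
            have e2 : m + (p * (m / p + 1) - m + (j - p)) = p * (m / p + 1) + (j - p) := by omega
            rw [e1, e2] at h6
            rw [h6, h5, Nat.mod_eq_sub_mod hge]
      exact h4
  choose q hq h1 using key
  obtain ⟨w, hw⟩ := Finite.exists_infinite_fiber fun n => fun r : Fin p => c (p * q n + r)
  refine ⟨w, fun L N => ?_⟩
  have hw' : ((fun n => fun r : Fin p => c (p * q n + r)) ⁻¹' {w}).Infinite :=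
    Set.infinite_coe_iff.1 hw
  obtain ⟨n, hn, hn2⟩ := hw'.exists_gt (max L N)
  have e : (fun r : Fin p => c (p * q n + r)) = w := hn
  refine ⟨p * q n, ?_, fun j hj => ?_⟩
  · have h2 : q n ≤ p * q n := Nat.le_mul_of_pos_left _ hp
    have := hq n
    omega
  · have h2 : c (p * q n + j) = w ⟨j % p, Nat.mod_lt j hp⟩ := by
      rw [h1 n j (by omega), ← e]
    have h3 : (p * q n + j) % p = j % p := Nat.mul_add_mod p (q n) j
    simp only [h3]
    exact ⟨h2, trivial⟩

/-- The limit points of the translates of `c`. -/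
def Lim (c : ℕ → Fin k) : Set (ℕ → Fin k) :=
  {z | ∀ L N, ∃ m, N ≤ m ∧ ∀ j ≤ L, c (m + j) = z j}

/-- the shift -/
def sh (z : ℕ → Fin k) : ℕ → Fin k := fun n => z (n + 1)

theorem sh_iter (z : ℕ → Fin k) (n : ℕ) : sh^[n] z = fun i => z (i + n) := by
  induction n with
  | zero => rfl
  | succ n ih =>
    rw [Function.iterate_succ_apply', ih]
    funext i
    show z (i + 1 + n) = z (i + (n + 1))
    congr 1
    omega

theorem sh_cont : Continuous (sh : (ℕ → Fin k) → ℕ → Fin k) :=
  continuous_pi fun n => continuous_apply (n + 1)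

theorem mem_lim_iff {c z : ℕ → Fin k} :
    z ∈ Lim c ↔ MapClusterPt z Filter.atTop fun m : ℕ => fun j : ℕ => c (m + j) := by
  rw [mapClusterPt_iff_frequently]
  constructor
  · intro h s hs
    obtain ⟨v, hv, hzv, hvs⟩ := (PiNat.isTopologicalBasis_cylinders
      (E := fun _ : ℕ => Fin k)).mem_nhds_iff.1 hs
    obtain ⟨x, n, rfl⟩ := hv
    rw [Filter.frequently_atTop]
    intro N
    obtain ⟨m, hm, h1⟩ := h n N
    refine ⟨m, hm, hvs ?_⟩
    intro i hi
    show c (m + i) = x i
    rw [h1 i hi.le]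
    exact hzv i hi
  · intro h L N
    have h1 := h _ ((PiNat.isOpen_cylinder (fun _ : ℕ => Fin k) z (L + 1)).mem_nhds
      (PiNat.self_mem_cylinder z (L + 1)))
    rw [Filter.frequently_atTop] at h1
    obtain ⟨m, hm, h2⟩ := h1 N
    exact ⟨m, hm, fun j hj => h2 j (by omega)⟩

theorem lim_closed (c : ℕ → Fin k) : IsClosed (Lim c) := by
  have : Lim c = {z | ClusterPt z (Filter.map (fun m : ℕ => fun j : ℕ => c (m + j))
      Filter.atTop)} := Set.ext fun z => mem_lim_iff
  rw [this]
  exact isClosed_setOfPred_clusterPt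

theorem lim_nonempty (c : ℕ → Fin k) : (Lim c).Nonempty := by
  obtain ⟨z, hz⟩ := exists_clusterPt_of_compactSpace
    (Filter.map (fun m : ℕ => fun j : ℕ => c (m + j)) Filter.atTop)
  exact ⟨z, mem_lim_iff.2 hz⟩

theorem lim_sh {c z : ℕ → Fin k} (hz : z ∈ Lim c) : sh z ∈ Lim c := by
  intro L N
  obtain ⟨m, hm, h1⟩ := hz (L + 1) N
  refine ⟨m + 1, by omega, fun j hj => ?_⟩
  have := h1 (j + 1) (by omega)
  rw [show m + 1 + j = m + (j + 1) by omega, this]
  rfl

/-- a minimal closed invariant set -/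
theorem exists_minimal_set (c : ℕ → Fin k) : ∃ V : Set (ℕ → Fin k), V.Nonempty ∧ IsClosed V ∧
    V ⊆ Lim c ∧ (∀ z ∈ V, sh z ∈ V) ∧
    ∀ W : Set (ℕ → Fin k), W.Nonempty → IsClosed W → (∀ z ∈ W, sh z ∈ W) → W ⊆ V → W = V := by
  let S : Set (Set (ℕ → Fin k)) :=
    {V | V.Nonempty ∧ IsClosed V ∧ V ⊆ Lim c ∧ ∀ z ∈ V, sh z ∈ V}
  obtain ⟨V, -, hV⟩ := zorn_superset_nonempty S (fun C hC hch hne => by
    refine ⟨⋂₀ C, ⟨?_, ?_, ?_, ?_⟩, fun s hs => Set.sInter_subset_of_mem hs⟩
    · have : Nonempty C := hne.to_subtype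
      refine IsCompact.nonempty_sInter_of_directed_nonempty_isCompact_isClosed ?_ ?_ ?_ ?_
      · intro a ha b hb
        rcases hch.total ha hb with h | h
        · exact ⟨a, ha, subset_rfl, h⟩
        · exact ⟨b, hb, h, subset_rfl⟩
      · exact fun V hV => (hC hV).1
      · exact fun V hV => (hC hV).2.1.isCompact
      · exact fun V hV => (hC hV).2.1
    · exact isClosed_sInter fun V hV => (hC hV).2.1
    · obtain ⟨V, hV⟩ := hne
      exact (Set.sInter_subset_of_mem hV).trans (hC hV).2.2.1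
    · intro z hz V hV
      exact (hC hV).2.2.2 z (hz V hV)) (Lim c)
    ⟨lim_nonempty c, lim_closed c, subset_rfl, fun z hz => lim_sh hz⟩
  refine ⟨V, hV.prop.1, hV.prop.2.1, hV.prop.2.2.1, hV.prop.2.2.2, fun W h1 h2 h3 h4 => ?_⟩
  exact (hV.eq_of_subset ⟨h1, h2, h4.trans hV.prop.2.2.1, h3⟩ h4)

/-- countably many limit points: there is a periodic one -/
theorem exists_periodic {c : ℕ → Fin k} (hc : (Lim c).Countable) :
    ∃ z ∈ Lim c, ∃ n, 0 < n ∧ ∀ i, z (i + n) = z i := by
  obtain ⟨V, hne, hcl, hsub, hinv, hmin⟩ := exists_minimal_set c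
  have hcount : Countable V := (hc.mono hsub).to_subtype
  have hcomp : CompactSpace V := isCompact_iff_compactSpace.1 hcl.isCompact
  have hne' : Nonempty V := hne.to_subtype
  obtain ⟨z, hz⟩ := nonempty_interior_of_iUnion_of_closed (X := V) (f := fun z : V => {z})
    (fun z => isClosed_singleton) (by
      ext z
      simp)
  obtain ⟨z', hz'⟩ := hz
  have hzz : z' = z := by simpa using interior_subset hz'
  subst hzz
  have hnh : ({z'} : Set V) ∈ nhds z' := mem_interior_iff_mem_nhds.1 hz'
  rw [nhds_subtype_eq_comap, Filter.mem_comap] at hnh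
  obtain ⟨t, ht, hts⟩ := hnh
  obtain ⟨v, hv, hzv, hvs⟩ := (PiNat.isTopologicalBasis_cylinders
      (E := fun _ : ℕ => Fin k)).mem_nhds_iff.1 ht
  obtain ⟨x, n, rfl⟩ := hv
  -- the closure of the forward orbit
  have hiter : ∀ m : ℕ, sh^[m] (z' : ℕ → Fin k) ∈ V := by
    intro m
    induction m with
    | zero => exact z'.2
    | succ m ih =>
      rw [Function.iterate_succ_apply']
      exact hinv _ ih
  have hW : closure (Set.range fun m : ℕ => sh^[m + 1] (z' : ℕ → Fin k)) = V := by
    refine hmin _ ?_ isClosed_closure ?_ ?_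
    · exact (Set.range_nonempty _).closure
    · intro w hw
      have h1 : Set.MapsTo (sh : (ℕ → Fin k) → ℕ → Fin k)
          (Set.range fun m : ℕ => sh^[m + 1] (z' : ℕ → Fin k))
          (Set.range fun m : ℕ => sh^[m + 1] (z' : ℕ → Fin k)) := by
        rintro _ ⟨m, rfl⟩
        exact ⟨m + 1, Function.iterate_succ_apply' _ _ _⟩
      exact h1.closure sh_cont hw
    · refine closure_minimal ?_ hcl
      rintro _ ⟨m, rfl⟩
      exact hiter _
  have hzW : (z' : ℕ → Fin k) ∈ closure (Set.range fun m : ℕ => sh^[m + 1] (z' : ℕ → Fin k)) := by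
    rw [hW]
    exact z'.2
  obtain ⟨w, hw1, m, hm⟩ := mem_closure_iff.1 hzW _
    (PiNat.isOpen_cylinder (fun _ : ℕ => Fin k) x n) hzv
  subst hm
  have h2 : (⟨sh^[m + 1] (z' : ℕ → Fin k), hiter _⟩ : V) ∈ ({z'} : Set V) := hts (hvs hw1)
  have h3 : sh^[m + 1] (z' : ℕ → Fin k) = z' := congrArg Subtype.val h2
  refine ⟨z', hsub z'.2, m + 1, Nat.succ_pos m, fun i => ?_⟩
  rw [sh_iter] at h3
  exact congrFun h3 i

theorem gr_periodic {p : ℕ} (hp : 0 < p) (w : Fin p → Fin k) :
    Gr A fun n => w ⟨n % p, Nat.mod_lt n hp⟩ := by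
  refine Gr.of_comp ?_
  have h1 : Primrec fun n : ℕ => (⟨n % p, Nat.mod_lt n hp⟩ : Fin p) := by
    refine Primrec.fin_val_iff.1 ?_
    exact Primrec.nat_mod.comp Primrec.id (Primrec.const p)
  exact ((Primrec.dom_finite w).comp h1).to_comp

theorem gr_patch {c : ℕ → Fin k} (hc : Gr A c) {M : ℕ} (w : Fin M → Fin k) :
    Gr A (patch w c) := by
  have h1 : Gr A fun n : ℕ => (n, c n) := (Gr.of_comp (by fun_prop)).pair hc
  let l : List (Fin k) := List.ofFn w
  refine (Gr.post (g := fun q : ℕ × Fin k => (l[q.1]?).getD q.2) ?_ h1).of_eq fun n => ?_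
  · refine Primrec.to_comp ?_
    exact Primrec.option_getD.comp
      (Primrec.list_getElem?.comp (Primrec.const l) Primrec.fst) Primrec.snd
  · show (l[n]?).getD (c n) = patch w c n
    unfold patch
    by_cases h : n < M
    · rw [dif_pos h]
      have h2 : n < l.length := by simpa [l] using h
      rw [List.getElem?_eq_getElem h2, Option.getD_some]
      simp [l]
    · rw [dif_neg h]
      have h2 : l.length ≤ n := by simpa [l] using h
      rw [List.getElem?_eq_none h2, Option.getD_none]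

theorem solution_of_periodic {c : ℕ → Fin k} (hc : Gr A c) {p : ℕ} (hp : 0 < p)
    (h : ∀ L N, ∃ m, N ≤ m ∧ ∀ j ≤ L, c (m + j + p) = c (m + j)) :
    ∃ X, Solution c X ∧ Computes A (char X) := by
  obtain ⟨w, hw⟩ := jr_of_periodic hp h
  exact solution_of_jr hc (gr_periodic hp w) hw

theorem solution_of_countable {c : ℕ → Fin k} (hc : Gr A c) (h : (Lim c).Countable) :
    ∃ X, Solution c X ∧ Computes A (char X) := by
  obtain ⟨z, hz, n, hn, h1⟩ := exists_periodic h
  refine solution_of_periodic hc hn fun L N => ?_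
  obtain ⟨m, hm, h2⟩ := hz (L + n) N
  refine ⟨m, hm, fun j hj => ?_⟩
  rw [show m + j + n = m + (j + n) by ring, h2 (j + n) (by omega), h1, h2 j (by omega)]

theorem solution_of_recurrent {c : ℕ → Fin k} (hc : Gr A c) (M : ℕ)
    (h : ∀ L N, ∃ m, N ≤ m ∧ ∀ j, M ≤ j → j ≤ L → c (m + j) = c j) :
    ∃ X, Solution c X ∧ Computes A (char X) := by
  obtain ⟨w, hw⟩ := jr_of_recurrent M h
  exact solution_of_jr hc (gr_patch hc w) hw

end Pool.Agent.Q332.HinProx
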